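import Mathlib
import Pool.Agent.H338R2.AS.Defs
import Pool.Agent.H388SL.Fin

/-!
# Dobrowolski's theorem for arbitrary integer polynomials
-/

set_option autoImplicit false

open Finset Polynomial Module IntermediateField

namespace Pool.Agent.H338R2.AS

open Pool.Agent.H388SL

lemma lm_eq_log {F : ℤ[X]} (hF : F ≠ 0) : Real.log (MM F) = lm F := by
  have h : (F.map (Int.castRingHom ℂ)) ≠ 0 :=
    (Polynomial.map_ne_zero_iff (RingHom.injective_int _)).mpr hF
  rw [MM, mahlerMeasure_def_of_ne_zero h, Real.log_exp]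
  rfl

lemma lm_zero : lm 0 = 0 := by
  simp [lm]

/-- the irreducible monic case -/
lemma t5_irr_monic {c : ℝ}
    (hc : ∀ (K : Type) [Field K] [NumberField K] (α : K), IsIntegral ℤ α →
    α ≠ 0 → (∀ n : ℕ, 0 < n → α ^ n ≠ 1) → CInj α →
    c / (Real.log (2 * finrank ℚ K)) ^ 3 ≤ lam α)
    (p : ℤ[X]) (hp : Irreducible p) (hm : p.Monic) :
    (∀ z : ℂ, aeval z p = 0 → ‖z‖ ≤ 1) ∨
    c / (Real.log (2 * p.natDegree)) ^ 3 ≤ Real.log (MM p) := by
  classical
  have hdeg : p.natDegree ≠ 0 := by
    intro h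
    have := hm.natDegree_eq_zero.mp h
    exact hp.not_isUnit (this ▸ isUnit_one)
  obtain ⟨z, hz⟩ := IsAlgClosed.exists_aeval_eq_zero ℂ p (by
    intro h
    exact hdeg (natDegree_eq_of_degree_eq_some h))
  have hzi : IsIntegral ℤ z := ⟨p, hm, by rw [← Polynomial.aeval_def]; exact hz⟩
  have hzQ : IsIntegral ℚ z := hzi.tower_top
  have hmin : minpoly ℤ z = p := by
    have h1 := minpoly.isIntegrallyClosed_dvd hzi hz
    have h2 : Associated (minpoly ℤ z) p :=
      (minpoly.irreducible hzi).associated_of_dvd hp h1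
    exact eq_of_monic_of_associated (minpoly.monic hzi) hm h2
  by_cases hz0 : z = 0
  · left
    intro w hw
    have h1 : minpoly ℤ z ∣ X := minpoly.isIntegrallyClosed_dvd hzi (by simp [hz0])
    rw [hmin] at h1
    obtain ⟨q, hq⟩ := h1
    have h2 : aeval w (X : ℤ[X]) = 0 := by rw [hq, map_mul, hw, zero_mul]
    rw [aeval_X] at h2
    rw [h2]; simp
  by_cases hzr : ∃ n : ℕ, 0 < n ∧ z ^ n = 1
  · left
    obtain ⟨n, hn, hzn⟩ := hzr
    intro w hw
    have h1 : minpoly ℤ z ∣ X ^ n - 1 := minpoly.isIntegrallyClosed_dvd hzi (by simp [hzn])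
    rw [hmin] at h1
    obtain ⟨q, hq⟩ := h1
    have h2 : aeval w (X ^ n - 1 : ℤ[X]) = 0 := by rw [hq, map_mul, hw, zero_mul]
    have h3 : w ^ n = 1 := by
      rw [map_sub, map_pow, aeval_X, map_one, sub_eq_zero] at h2
      exact h2
    exact (Complex.norm_eq_one_of_pow_eq_one h3 hn.ne').le
  right
  push Not at hzr
  set L := adjoin ℚ {z} with hL
  have hfin : FiniteDimensional ℚ L := adjoin.finiteDimensional hzQ
  have : NumberField L := { to_charZero := inferInstance, to_finiteDimensional := hfin }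
  set α : L := AdjoinSimple.gen ℚ z with hα
  have hαz : algebraMap L ℂ α = z := AdjoinSimple.algebraMap_gen ℚ z
  have hαi : IsIntegral ℤ α := by
    rw [← hαz] at hzi
    exact (isIntegral_algebraMap_iff (algebraMap L ℂ).injective).mp hzi
  have hα0 : α ≠ 0 := by
    intro h
    rw [h, map_zero] at hαz
    exact hz0 hαz.symm
  have hαroot : ∀ n : ℕ, 0 < n → α ^ n ≠ 1 := by
    intro n hn h
    have h1 := congrArg (algebraMap L ℂ) h
    rw [map_pow, hαz, map_one] at h1
    exact hzr n hn h1
  have hαc : CInj α := by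
    intro σ τ h
    apply adjoin_algHom_ext ℚ (s := {z})
    intro x hx
    rw [Set.mem_singleton_iff] at hx
    subst hx
    exact h
  have hminα : minpoly ℤ α = p := by
    rw [← hmin, ← hαz]
    exact (minpoly.algebraMap_eq (algebraMap L ℂ).injective α).symm
  have hpmap : p.map (Int.castRingHom ℂ) = ∏ τ : L →ₐ[ℚ] ℂ, (X - C (τ α)) := by
    rw [← minpoly_map_eq hαc, minpoly.isIntegrallyClosed_eq_field_fractions' ℚ hαi, hminα,
      Polynomial.map_map]
    rfl
  have hMM : Real.log (MM p) = lam α := by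
    rw [MM, hpmap]
    have h1 : (∏ τ : L →ₐ[ℚ] ℂ, (X - C (τ α))).mahlerMeasure = ∏ τ : L →ₐ[ℚ] ℂ, max 1 ‖τ α‖ := by
      rw [Finset.prod_eq_multiset_prod, prod_mahlerMeasure_eq_mahlerMeasure_prod, Multiset.map_map,
        Finset.prod_eq_multiset_prod]
      congr 1
      refine Multiset.map_congr rfl fun τ _ => ?_
      rw [Function.comp_apply, mahlerMeasure_X_sub_C]
    rw [h1, Real.log_prod]
    · rfl
    · intro τ _
      have : (0:ℝ) < max 1 ‖τ α‖ := lt_of_lt_of_le one_pos (le_max_left _ _)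
      exact this.ne'
  have hfr : finrank ℚ L = p.natDegree := by
    rw [hL, adjoin.finrank hzQ, minpoly.isIntegrallyClosed_eq_field_fractions' ℚ hzi, hmin]
    exact natDegree_map_eq_of_injective (algebraMap ℤ ℚ).injective_int p
  have h := hc L α hαi hα0 hαroot hαc
  rw [hfr, ← hMM] at h
  exact h

/-- a monic integer polynomial with all roots in the closed unit disc has measure 1 -/
lemma t5_roots_le {p : ℤ[X]} (hm : p.Monic) (h : ∀ z : ℂ, aeval z p = 0 → ‖z‖ ≤ 1) :
    MM p = 1 := by
  rw [MM, mahlerMeasure_eq_leadingCoeff_mul_prod_roots]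
  rw [(hm.map (Int.castRingHom ℂ)).leadingCoeff, norm_one, one_mul]
  apply Multiset.prod_eq_one
  intro x hx
  rw [Multiset.mem_map] at hx
  obtain ⟨z, hz, rfl⟩ := hx
  apply max_eq_left
  apply h
  rw [Polynomial.mem_roots'] at hz
  have h2 := hz.2
  rw [IsRoot, eval_map] at h2
  rw [aeval_def]
  exact h2

theorem dobr_poly : ∃ c : ℝ, 0 < c ∧ ∀ F : ℤ[X], 0 < lm F → ∀ D : ℕ, 1 ≤ D → F.natDegree ≤ D →
    c / (Real.log (2 * D)) ^ 3 ≤ lm F := by
  obtain ⟨c1, hc1, hc⟩ := dob
  have hlog2 : 0 < Real.log 2 := Real.log_pos (by norm_num)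
  refine ⟨min c1 ((Real.log 2) ^ 4), by positivity, ?_⟩
  set c := min c1 ((Real.log 2) ^ 4) with hcdef
  have hc0 : 0 < c := by positivity
  -- the irreducible case
  have hirr : ∀ D : ℕ, 1 ≤ D → ∀ p : ℤ[X], Irreducible p → p.natDegree ≤ D →
      Real.log (MM p) = 0 ∨ c / (Real.log (2 * D)) ^ 3 ≤ Real.log (MM p) := by
    intro D hD p hp hpD
    have hD1 : (1:ℝ) ≤ D := by exact_mod_cast hD
    have hp0 : p ≠ 0 := hp.ne_zero
    have hlD : Real.log 2 ≤ Real.log (2 * D) := Real.log_le_log (by norm_num) (by linarith)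
    have hbig : (2:ℝ) ≤ MM p → c / (Real.log (2 * D)) ^ 3 ≤ Real.log (MM p) := by
      intro h2
      have h3 : Real.log 2 ≤ Real.log (MM p) := Real.log_le_log (by norm_num) h2
      have h4 : c ≤ (Real.log 2) ^ 4 := min_le_right _ _
      have h5 : (Real.log 2) ^ 3 ≤ (Real.log (2 * D)) ^ 3 := by gcongr
      have h6 : 0 < Real.log (2 * D) := by linarith
      rw [div_le_iff₀ (by positivity)]
      calc c ≤ (Real.log 2) ^ 4 := h4
        _ = Real.log 2 * (Real.log 2) ^ 3 := by ring
        _ ≤ Real.log (MM p) * (Real.log (2 * D)) ^ 3 := by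
          apply mul_le_mul h3 h5 (by positivity) (by linarith)
    have hmon : ∀ q : ℤ[X], Irreducible q → q.Monic → q.natDegree ≤ D →
        Real.log (MM q) = 0 ∨ c / (Real.log (2 * D)) ^ 3 ≤ Real.log (MM q) := by
      intro q hq hqm hqD
      have hq1 : 1 ≤ q.natDegree := by
        rw [Nat.one_le_iff_ne_zero]
        intro h
        have := hqm.natDegree_eq_zero.mp h
        exact hq.not_isUnit (this ▸ isUnit_one)
      rcases t5_irr_monic hc q hq hqm with h | h
      · left
        rw [t5_roots_le hqm h, Real.log_one]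
      · right
        refine le_trans ?_ h
        have h1 : (1:ℝ) ≤ q.natDegree := by exact_mod_cast hq1
        have h2 : (q.natDegree:ℝ) ≤ D := by exact_mod_cast hqD
        have h3 : 0 < Real.log (2 * q.natDegree) := Real.log_pos (by linarith)
        have h4 : Real.log (2 * q.natDegree) ≤ Real.log (2 * D) :=
          Real.log_le_log (by positivity) (by linarith)
        have h5 : c ≤ c1 := min_le_left _ _
        gcongr
    by_cases hlc : |p.leadingCoeff| = 1
    · rcases (abs_eq (by norm_num : (0:ℤ) ≤ 1)).mp hlc with h | h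
      · exact hmon p hp h hpD
      · have h1 := hmon (-p) (by simpa using (irreducible_units_mul (-1 : ℤ[X]ˣ)).mpr hp) (by
            rw [Monic, leadingCoeff_neg, h]; norm_num) (by rw [natDegree_neg]; exact hpD)
        rwa [MM_neg] at h1
    · right
      apply hbig
      have h1 : 1 ≤ |p.leadingCoeff| := Int.one_le_abs (leadingCoeff_ne_zero.mpr hp0)
      have h2 : 2 ≤ |p.leadingCoeff| := by omega
      have h3 := leadingCoeff_le_MM p
      have h4 : (2:ℝ) ≤ |(p.leadingCoeff : ℝ)| := by exact_mod_cast h2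
      linarith
  intro F hF D hD hFD
  have hF0 : F ≠ 0 := by
    rintro rfl
    rw [lm_zero] at hF
    exact lt_irrefl _ hF
  have key : ∀ G : ℤ[X], G ≠ 0 → G.natDegree ≤ D →
      Real.log (MM G) = 0 ∨ c / (Real.log (2 * D)) ^ 3 ≤ Real.log (MM G) := by
    intro G
    refine WfDvdMonoid.induction_on_irreducible G ?_ ?_ ?_
    · intro h; exact absurd rfl h
    · intro u hu _ _
      left
      obtain ⟨r, hr, hru⟩ := Polynomial.isUnit_iff.mp hu
      rw [← hru, MM, Polynomial.map_C, mahlerMeasure_const]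
      have h1 : |r| = 1 := Int.isUnit_iff_abs_eq.mp hr
      have h2 : ‖(Int.castRingHom ℂ) r‖ = 1 := by
        rw [eq_intCast, Complex.norm_intCast]
        exact_mod_cast h1
      rw [h2, Real.log_one]
    · intro a p ha hp ih hne hdeg
      rw [natDegree_mul hp.ne_zero ha] at hdeg
      have h1 := ih ha (by omega)
      have h2 := hirr D hD p hp (by omega)
      rw [MM_mul, Real.log_mul (MM_pos hp.ne_zero).ne' (MM_pos ha).ne']
      have h3 : 0 ≤ Real.log (MM a) := Real.log_nonneg (one_le_MM ha)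
      have h4 : 0 ≤ Real.log (MM p) := Real.log_nonneg (one_le_MM hp.ne_zero)
      rcases h1 with h1 | h1 <;> rcases h2 with h2 | h2
      · left; rw [h1, h2, add_zero]
      · right; linarith
      · right; linarith
      · right; linarith
  have h := key F hF0 hFD
  rw [lm_eq_log hF0] at h
  rcases h with h | h
  · rw [h] at hF; exact absurd hF (lt_irrefl _)
  · exact h

end Pool.Agent.H338R2.AS
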