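import Pool.Agent.H338R2.AS.Defs

set_option autoImplicit false

open Polynomial MeasureTheory

namespace Pool.Agent.H338R2.AS

/-- TASK T1 -/
theorem moment_eq {k m : ℕ} (c : Fin k → ℂ) (a d : Fin k → ℤ) (h : Sim m a d) {i : ℕ}
    (hi : i ≤ m) :
    ∫ t in (0:ℝ)..1, ‖es c a t‖ ^ (2 * i) = ∫ t in (0:ℝ)..1, ‖es c d t‖ ^ (2 * i) := by
  sorry

/-- TASK T2a -/
theorem level_lemma {k : ℕ} (c : Fin k → ℂ) (a : Fin k → ℤ) (D : ℕ) (hD : 1 ≤ D)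
    (ha : ∀ j, |a j| ≤ D) (T κ : ℝ) (hT : 0 < T) (hκ : 0 < κ) :
    volume {t : ℝ | t ∈ Set.Icc (0:ℝ) 1 ∧ ‖es c a t‖ < T ∧
      2 * κ ≤ ‖es (fun j => 2 * Real.pi * Complex.I * (a j) * c j) a t‖} ≤
      ENNReal.ofReal (20 * D * (T / κ)) := by
  sorry

/-- TASK T2 -/
theorem small_values {r : ℕ} (c : Fin (r + 1) → ℂ) (a : Fin (r + 1) → ℤ)
    (ha : Function.Injective a) (j : Fin (r + 1)) (s : ℝ) (hs : 0 < s) :
    volume {t : ℝ | t ∈ Set.Icc (0:ℝ) 1 ∧ ‖es c a t‖ < (s / 2) ^ r * ‖c j‖} ≤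
      ENNReal.ofReal (20 * r * s) := by
  sorry

/-- TASK T3 -/
theorem log_compare {r m : ℕ} (hr : 1 ≤ r) (hm : 1 ≤ m) (c : Fin (r + 1) → ℤ) (hc : ∀ j, c j ≠ 0)
    (a d : Fin (r + 1) → ℕ) (ha : Function.Injective a) (hd : Function.Injective d)
    (h : Sim m (fun j => (a j : ℤ)) (fun j => (d j : ℤ))) (s : ℝ) (hs : 0 < s) (hs1 : s ≤ 1) :
    |lm (sp c a) - lm (sp c d)| ≤
      Real.exp (-(m * ((s / 2) ^ (2 * r) / (r + 1) ^ 2))) / ((s / 2) ^ (2 * r) / (r + 1) ^ 2) +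
        20 * r * s * (2 * Real.log (r + 1) + 2 * r * Real.log (2 / s) + 4 * r * Real.log 2) := by
  sorry

/-- TASK T4 -/
theorem small_rep {k m : ℕ} (hm : 1 ≤ m) (d : Fin k → ℕ) :
    ∃ a : Fin k → ℕ, Sim m (fun j => (a j : ℤ)) (fun j => (d j : ℤ)) ∧
      ∀ j, a j ≤ 3 * ((4 * m + 1) ^ k + 1) * (2 * m + 1) ^ k := by
  sorry

/-- TASK T5 (helper338) -/
theorem dobr_poly : ∃ c : ℝ, 0 < c ∧ ∀ F : ℤ[X], 0 < lm F → ∀ D : ℕ, 1 ≤ D → F.natDegree ≤ D →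
    c / (Real.log (2 * D)) ^ 3 ≤ lm F := by
  sorry

/-- TASK T6 (helper338) -/
theorem monomial_gap : ∃ c : ℝ, 0 < c ∧ ∀ F : ℤ[X], 0 < lm F →
    c / ((F.support.card : ℝ) ^ 6 * (Real.log (2 * F.support.card)) ^ 3) ≤ lm F := by
  sorry

end Pool.Agent.H338R2.AS
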